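import Mathlib
import Pool.Agent.H587.FD.Block2
import Pool.Agent.H587.FD.Final

set_option autoImplicit false

open Finset MeasureTheory Filter

namespace Pool.Agent.H587.CT

open Pool.Agent.H587.FD

/-- Chebyshev inequality for the number of solutions of the inequalities `‖q_i β - γ_i‖ < 1 / M_i`. -/
theorem cheb {ι : Type*} [DecidableEq ι] (μ : Measure ℝ) [IsProbabilityMeasure μ]
    (T : Finset ι) (q : ι → ℤ) (M : ι → ℕ) (γ : ι → ℝ) (D : ℝ) (hD : 0 ≤ D)
    (hM : ∀ i ∈ T, 3 ≤ M i)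
    (hdec : ∀ i ∈ T, ∀ i' ∈ T, ∀ h h' : ℤ, h ≠ 0 → h' ≠ 0 → |h| ≤ M i → |h'| ≤ M i' →
      ((i, h) ≠ (i', h')) → ‖∫ x, e (((h * q i - h' * q i' : ℤ) : ℝ) * x) ∂μ‖ ≤ D)
    (S : ℝ) (hS0 : 0 < S) (hS : S ≤ ∑ i ∈ T, 1 / (M i : ℝ)) :
    μ {β | ((T.filter fun i => |(q i * β - γ i) - round (q i * β - γ i)| < 1 / (M i : ℝ)).card : ℝ) <
      S / 20} ≤ ENNReal.ofReal (1200 / S + 400 * (D * (T.card : ℝ) ^ 2) / S ^ 2) := by
  classical
  choose! a f hf using fun (i : ι) (hi : 3 ≤ M i) => minorant (M i) hi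
  -- the sums
  set Z : ℝ → ℝ := fun β => ∑ i ∈ T, f i (q i * β - γ i) with hZ
  set E : ℝ := ∑ i ∈ T, a i 0 with hE
  have hElow' : 1 / 10 * ∑ i ∈ T, 1 / (M i : ℝ) ≤ E := by
    rw [hE, mul_sum]
    refine sum_le_sum fun i hi => ?_
    have := (hf i (hM i hi)).2.2.2.1
    calc 1 / 10 * (1 / (M i : ℝ)) = 1 / 10 / (M i : ℝ) := by ring
      _ ≤ a i 0 := this
  have hElow : S / 10 ≤ E := by linarith
  have hE0 : 0 < E := by linarith
  -- the second moment
  have hsec : ∫ β, (Z β - E) ^ 2 ∂μ ≤ 30 * E + D * (T.card : ℝ) ^ 2 := by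
    set U : Finset (Σ _ : ι, ℤ) := T.sigma fun i => (Icc (-(M i : ℤ)) (M i)).erase 0 with hU
    have h1 : ∀ β : ℝ, (Z β - E) ^ 2 = ‖∑ p ∈ U, ((a p.1 p.2 : ℂ) * e (-(p.2 * γ p.1))) *
        e (((p.2 * q p.1 : ℤ) : ℝ) * β)‖ ^ 2 := by
      intro β
      have h2 : ((Z β - E : ℝ) : ℂ) = ∑ p ∈ U, ((a p.1 p.2 : ℂ) * e (-(p.2 * γ p.1))) *
        e (((p.2 * q p.1 : ℤ) : ℝ) * β) := by
        rw [hU, sum_sigma, hZ, hE]
        push_cast
        rw [← sum_sub_distrib]
        refine sum_congr rfl fun i hi => ?_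
        have h3 := (hf i (hM i hi)).2.2.2.2.1 (q i * β - γ i)
        rw [h3]
        have h0 : (0 : ℤ) ∈ Icc (-(M i : ℤ)) (M i) := by
          rw [mem_Icc]; omega
        rw [← add_sum_erase _ _ h0]
        simp only [Int.cast_zero, zero_mul, e_zero, mul_one, add_sub_cancel_left]
        refine sum_congr rfl fun h _ => ?_
        have h4 : e (h * (q i * β - γ i)) = e (-(h * γ i)) * e (h * q i * β) := by
          rw [← e_add]; congr 1; ring
        rw [h4]
        push_cast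
        ring
      rw [← h2, Complex.norm_real, Real.norm_eq_abs, sq_abs]
    simp_rw [h1]
    refine (l2 μ U (fun p => (a p.1 p.2 : ℂ) * e (-(p.2 * γ p.1))) (fun p => p.2 * q p.1)
      (fun _ => 1) D hD (fun _ => zero_le_one) ?_).trans ?_
    · rintro ⟨i, h⟩ hp ⟨i', h'⟩ hp' hne
      rw [hU, mem_sigma, mem_erase, mem_Icc] at hp hp'
      have := hdec i hp.1 i' hp'.1 h h' hp.2.1 hp'.2.1 (by rw [abs_le]; exact hp.2.2)
        (by rw [abs_le]; exact hp'.2.2) (by
          intro heq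
          rw [Prod.mk.injEq] at heq
          obtain ⟨rfl, rfl⟩ := heq
          exact hne rfl)
      simpa using this
    · have hn : ∀ p : (Σ _ : ι, ℤ), p ∈ U → ‖(a p.1 p.2 : ℂ) * e (-(p.2 * γ p.1))‖ = a p.1 p.2 := by
        intro p hp
        rw [hU, mem_sigma] at hp
        rw [norm_mul, norm_e, mul_one, Complex.norm_real, Real.norm_eq_abs,
          abs_of_nonneg ((hf p.1 (hM p.1 hp.1)).1 p.2)]
      have h5 : ∑ p ∈ U, ‖(a p.1 p.2 : ℂ) * e (-(p.2 * γ p.1))‖ ^ 2 ≤ 30 * E := by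
        calc ∑ p ∈ U, ‖(a p.1 p.2 : ℂ) * e (-(p.2 * γ p.1))‖ ^ 2 = ∑ p ∈ U, a p.1 p.2 ^ 2 :=
              sum_congr rfl fun p hp => by rw [hn p hp]
          _ = ∑ i ∈ T, ∑ h ∈ (Icc (-(M i : ℤ)) (M i)).erase 0, a i h ^ 2 := by
              rw [hU, sum_sigma]
          _ ≤ ∑ i ∈ T, 3 / (M i : ℝ) := by
              refine sum_le_sum fun i hi => ?_
              obtain ⟨g1, g2, g3, -⟩ := hf i (hM i hi)
              calc ∑ h ∈ (Icc (-(M i : ℤ)) (M i)).erase 0, a i h ^ 2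
                  ≤ ∑ h ∈ (Icc (-(M i : ℤ)) (M i)), a i h ^ 2 :=
                    sum_le_sum_of_subset_of_nonneg (erase_subset _ _) fun h _ _ => sq_nonneg _
                _ ≤ ∑ h ∈ (Icc (-(M i : ℤ)) (M i)), 3 / (M i : ℝ) * a i h := by
                    refine sum_le_sum fun h _ => ?_
                    rw [sq]
                    exact mul_le_mul_of_nonneg_right (g2 h) (g1 h)
                _ = 3 / (M i : ℝ) * ∑ h ∈ (Icc (-(M i : ℤ)) (M i)), a i h := by rw [mul_sum]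
                _ ≤ 3 / (M i : ℝ) * 1 := by gcongr
                _ = 3 / (M i : ℝ) := mul_one _
          _ = 30 * (1 / 10 * ∑ i ∈ T, 1 / (M i : ℝ)) := by
              rw [mul_sum, mul_sum]
              refine sum_congr rfl fun i _ => ?_
              ring
          _ ≤ 30 * E := by linarith
      have h6 : ∑ p ∈ U, ‖(a p.1 p.2 : ℂ) * e (-(p.2 * γ p.1))‖ * 1 ≤ T.card := by
        calc ∑ p ∈ U, ‖(a p.1 p.2 : ℂ) * e (-(p.2 * γ p.1))‖ * 1 = ∑ p ∈ U, a p.1 p.2 :=
              sum_congr rfl fun p hp => by rw [hn p hp, mul_one]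
          _ = ∑ i ∈ T, ∑ h ∈ (Icc (-(M i : ℤ)) (M i)).erase 0, a i h := by
              rw [hU, sum_sigma]
          _ ≤ ∑ i ∈ T, (1 : ℝ) := by
              refine sum_le_sum fun i hi => ?_
              obtain ⟨g1, g2, g3, -⟩ := hf i (hM i hi)
              exact (sum_le_sum_of_subset_of_nonneg (erase_subset _ _) fun h _ _ => g1 h).trans g3
          _ = T.card := by simp
      have h7 : 0 ≤ ∑ p ∈ U, ‖(a p.1 p.2 : ℂ) * e (-(p.2 * γ p.1))‖ * 1 :=
        sum_nonneg fun p _ => mul_nonneg (norm_nonneg _) zero_le_one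
      have h8 : (∑ p ∈ U, ‖(a p.1 p.2 : ℂ) * e (-(p.2 * γ p.1))‖ * 1) ^ 2 ≤ (T.card : ℝ) ^ 2 := by
        gcongr
      have h9 := mul_le_mul_of_nonneg_left h8 hD
      linarith
  -- continuity
  have hfc : ∀ i ∈ T, Continuous (f i) := by
    intro i hi
    have h1 := (hf i (hM i hi)).2.2.2.2.1
    have h2 : f i = fun x => (∑ h ∈ Icc (-(M i : ℤ)) (M i), (a i h : ℂ) * e (h * x)).re := by
      funext x
      rw [← h1 x, Complex.ofReal_re]
    rw [h2]
    refine Complex.continuous_re.comp (continuous_finsetSum _ fun h _ => ?_)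
    exact continuous_const.mul (continuous_e _)
  have hZc : Continuous Z :=
    continuous_finsetSum _ fun i hi => (hfc i hi).comp (by fun_prop)
  -- comparison with the counting function
  have hcount : ∀ β, Z β ≤
      (T.filter fun i => |(q i * β - γ i) - round (q i * β - γ i)| < 1 / (M i : ℝ)).card := by
    intro β
    rw [hZ]
    simp only
    rw [← sum_filter_add_sum_filter_not T
      (fun i => |(q i * β - γ i) - round (q i * β - γ i)| < 1 / (M i : ℝ))]
    have h1 : ∑ i ∈ T.filter (fun i => |(q i * β - γ i) - round (q i * β - γ i)| < 1 / (M i : ℝ)),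
        f i (q i * β - γ i) ≤
        (T.filter fun i => |(q i * β - γ i) - round (q i * β - γ i)| < 1 / (M i : ℝ)).card := by
      refine (sum_le_card_nsmul _ _ 1 fun i hi => ?_).trans ?_
      · rw [mem_filter] at hi
        exact (hf i (hM i hi.1)).2.2.2.2.2.1 _
      · simp
    have h2 : ∑ i ∈ T.filter (fun i => ¬ |(q i * β - γ i) - round (q i * β - γ i)| < 1 / (M i : ℝ)),
        f i (q i * β - γ i) ≤ 0 := by
      refine sum_nonpos fun i hi => ?_
      rw [mem_filter, not_lt] at hi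
      exact (hf i (hM i hi.1)).2.2.2.2.2.2 _ hi.2
    linarith
  -- Chebyshev
  have h1 : {β | ((T.filter fun i =>
      |(q i * β - γ i) - round (q i * β - γ i)| < 1 / (M i : ℝ)).card : ℝ) < S / 20} ⊆
        {β | (E / 2) ^ 2 ≤ (Z β - E) ^ 2} := by
      intro β hβ
      have h3 := hcount β
      have h4 : Z β ≤ E / 2 := by
        have : ((T.filter fun i =>
          |(q i * β - γ i) - round (q i * β - γ i)| < 1 / (M i : ℝ)).card : ℝ) < S / 20 := hβ
        linarith
      change (E / 2) ^ 2 ≤ (Z β - E) ^ 2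
      nlinarith
  refine (measure_mono h1).trans ?_
  have hint : Integrable (fun β => (Z β - E) ^ 2) μ := by
    obtain ⟨B, hB⟩ : ∃ B, ∀ β, |Z β| ≤ B := by
      have h5 : ∀ i ∈ T, ∀ x, |f i x| ≤ 1 := by
        intro i hi x
        obtain ⟨g1, g2, g3, g4, g5, -⟩ := hf i (hM i hi)
        have h6 : |f i x| = ‖(f i x : ℂ)‖ := by rw [Complex.norm_real]; rfl
        rw [h6, g5]
        refine (norm_sum_le _ _).trans (le_trans (sum_le_sum fun h _ => ?_) g3)
        rw [norm_mul, norm_e, mul_one, Complex.norm_real, Real.norm_eq_abs, abs_of_nonneg (g1 h)]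
      refine ⟨∑ i ∈ T, 1, fun β => ?_⟩
      rw [hZ]
      exact (abs_sum_le_sum_abs _ _).trans (sum_le_sum fun i hi => h5 i hi _)
    refine Integrable.of_bound (C := (B + |E|) ^ 2) ?_ (Eventually.of_forall fun β => ?_)
    · exact ((hZc.sub continuous_const).pow 2).aestronglyMeasurable
    · rw [Real.norm_eq_abs, abs_pow]
      gcongr
      exact (abs_sub _ _).trans (add_le_add (hB β) le_rfl)
  have h7 := mul_meas_ge_le_integral_of_nonneg (μ := μ) (f := fun β => (Z β - E) ^ 2)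
    (Eventually.of_forall fun β => sq_nonneg _) hint ((E / 2) ^ 2)
  have h8 : (0 : ℝ) < (E / 2) ^ 2 := by positivity
  have h9 : μ.real {β | (E / 2) ^ 2 ≤ (Z β - E) ^ 2} ≤
      (30 * E + D * (T.card : ℝ) ^ 2) / (E / 2) ^ 2 := by
    rw [le_div_iff₀ h8, mul_comm]
    exact h7.trans hsec
  have h10 : (30 * E + D * (T.card : ℝ) ^ 2) / (E / 2) ^ 2 ≤
      1200 / S + 400 * (D * (T.card : ℝ) ^ 2) / S ^ 2 := by
    have e1 : (30 * E + D * (T.card : ℝ) ^ 2) / (E / 2) ^ 2 =
        120 / E + 4 * (D * (T.card : ℝ) ^ 2) / E ^ 2 := by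
      field_simp
      ring
    have e2 : 1200 / S = 120 / (S / 10) := by field_simp; norm_num
    have e3 : 400 * (D * (T.card : ℝ) ^ 2) / S ^ 2 = 4 * (D * (T.card : ℝ) ^ 2) / (S / 10) ^ 2 := by
      field_simp; ring
    rw [e1, e2, e3]
    gcongr
  rw [← ENNReal.ofReal_toReal (measure_ne_top μ {β | (E / 2) ^ 2 ≤ (Z β - E) ^ 2})]
  exact ENNReal.ofReal_le_ofReal (h9.trans h10)

end Pool.Agent.H587.CT
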