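import Mathlib
import Pool.Agent.H587.CT.Cheb

set_option autoImplicit false

open Finset MeasureTheory Filter

namespace Pool.Agent.H587.CT

open Pool.Agent.H587.FD

/-- the constant in the exceptional measure -/
noncomputable def C0 : ℝ := 3 * 10 ^ 9

/-- natural numbers solving the inequality of level `κ`, up to `Q` -/
noncomputable def sols (α : ℝ) (γ : ℕ → ℝ) (κ : ℝ) (Q : ℕ) (β : ℝ) : Finset ℕ :=
  (Icc 1 Q).filter fun q => (q : ℝ) * (dist1 (q * α) * dist1 (q * β - γ q)) < κ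

lemma cell2_inj (α : ℝ) (J t : ℕ) (ht : 10 * J ≤ t) (τ₁ τ₂ j₁ j₂ : ℕ) (z₁ z₂ : ℤ × ℤ)
    (ht₁ : t ≤ τ₁) (ht₂ : t ≤ τ₂) (hj₁ : j₁ < 2 * J) (hj₂ : j₂ < 2 * J) (hz₁ : Cell2 α τ₁ j₁ z₁)
    (hz₂ : Cell2 α τ₂ j₂ z₂) (h : z₁.1 = z₂.1) : z₁ = z₂ := by
  obtain ⟨u1, u2, u3, u4, u5, u6⟩ := hz₁
  obtain ⟨v1, v2, v3, v4, v5, v6⟩ := hz₂
  have key : ∀ (τ j : ℕ), t ≤ τ → j < 2 * J → 2 * (128 : ℝ) ^ (2 * j) / 128 ^ τ ≤ 1 / 4 := by
    intro τ j h1 h2
    rw [div_le_div_iff₀ (by positivity) (by norm_num)]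
    have h3 : (128 : ℝ) ^ (2 * j + 1) ≤ 128 ^ τ := pow_le_pow_right₀ (by norm_num) (by omega)
    rw [pow_succ] at h3
    have : (0 : ℝ) < 128 ^ (2 * j) := by positivity
    linarith
  have h1 := u6.trans (key τ₁ j₁ ht₁ hj₁)
  have h2 := v6.trans (key τ₂ j₂ ht₂ hj₂)
  rw [← h] at h2
  have h3 : |((z₁.2 - z₂.2 : ℤ) : ℝ)| < 1 := by
    have e1 : ((z₁.2 - z₂.2 : ℤ) : ℝ) = (z₁.1 * α - z₂.2) - (z₁.1 * α - z₁.2) := by push_cast; ring
    rw [e1]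
    have := abs_sub ((z₁.1 : ℝ) * α - z₂.2) (z₁.1 * α - z₁.2)
    linarith
  have h4 : |z₁.2 - z₂.2| < 1 := by exact_mod_cast h3
  have h5 : z₁.2 = z₂.2 := by
    rw [Int.abs_lt_one_iff] at h4
    omega
  exact Prod.ext h h5

/-- Few solutions only with small probability. -/
theorem count_block (μ : Measure ℝ) [IsProbabilityMeasure μ] (C δ : ℝ) (hC : 0 ≤ C) (hδ : 0 < δ)
    (hμ : ∀ n : ℤ, n ≠ 0 → ‖∫ x, e (n * x) ∂μ‖ ≤ C * |(n : ℝ)| ^ (-δ))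
    (α : ℝ) (γ : ℕ → ℝ) (g J : ℕ) (hJ : 5 ≤ J) (hg : 10 ≤ g) (hgδ : 11 ≤ δ * (g - 10 : ℕ))
    (hCJ : C ≤ 128 ^ J) (hdio : Dio2 α J ((g + 8) * J))
    (κ : ℝ) (hκ0 : 0 < κ) (hκ1 : κ ≤ 1) (hκJ : 5 / κ ≤ 128 ^ J) (hJκ : 1 ≤ (J : ℝ) ^ 2 * κ)
    (Q : ℕ) (hQ : 128 ^ ((g + 8) * J) ≤ Q) :
    μ {β | ((sols α γ κ Q β).card : ℝ) < (J : ℝ) ^ 2 * κ / 51200} ≤
      ENNReal.ofReal (C0 / ((J : ℝ) ^ 2 * κ)) := by
  classical
  set t : ℕ := g * J with htdef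
  have ht : 10 * J ≤ t := by rw [htdef]; gcongr
  have htK : t + 7 * J ≤ (g + 8) * J := by rw [htdef]; nlinarith
  have hcell : ∀ τ j : ℕ, (t ≤ τ ∧ τ < t + J ∧ J ≤ j ∧ j < 2 * J) → ∃ S : Finset (ℤ × ℤ),
      (∀ z ∈ S, Cell2 α τ j z) ∧ (128 : ℝ) ^ (2 * j) / 512 ≤ S.card ∧ S.card ≤ 128 ^ (2 * j) := by
    rintro τ j ⟨h1, h2, h3, h4⟩
    exact exists_cell2 α J ((g + 8) * J) τ j hdio hJ h3 (by omega) (by omega)
  choose! I hI using hcell
  set T : Finset (Σ _ : (Σ _ : ℕ, ℕ), ℤ × ℤ) :=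
    ((Ico t (t + J)).sigma fun _ => Ico J (2 * J)).sigma fun p => I p.1 p.2 with hT
  have hmem : ∀ i ∈ T, t ≤ i.1.1 ∧ i.1.1 < t + J ∧ J ≤ i.1.2 ∧ i.1.2 < 2 * J ∧
      Cell2 α i.1.1 i.1.2 i.2 := by
    intro i hi
    rw [hT, mem_sigma, mem_sigma, mem_Ico, mem_Ico] at hi
    obtain ⟨⟨⟨h1, h2⟩, h4, h5⟩, h6⟩ := hi
    exact ⟨h1, h2, h4, h5, (hI _ _ ⟨h1, h2, h4, h5⟩).1 _ h6⟩
  set M : (Σ _ : (Σ _ : ℕ, ℕ), ℤ × ℤ) → ℕ := fun i => ⌈4 * (128 : ℝ) ^ (2 * i.1.2) / κ⌉₊ with hM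
  have hMb : ∀ i ∈ T, 3 ≤ M i ∧ (M i : ℝ) ≤ 5 * 128 ^ (2 * i.1.2) / κ ∧
      (M i : ℝ) ≤ 128 ^ (5 * J) ∧ 4 * (128 : ℝ) ^ (2 * i.1.2) / κ ≤ M i := by
    intro i hi
    obtain ⟨h1, h2, h3, h4, h5⟩ := hmem i hi
    have hp : (1 : ℝ) ≤ 128 ^ (2 * i.1.2) := one_le_pow₀ (by norm_num)
    have h6 : (4 : ℝ) ≤ 4 * (128 : ℝ) ^ (2 * i.1.2) / κ := by
      rw [le_div_iff₀ hκ0]; nlinarith
    have h7 := Nat.le_ceil (4 * (128 : ℝ) ^ (2 * i.1.2) / κ)
    have h8 : (⌈4 * (128 : ℝ) ^ (2 * i.1.2) / κ⌉₊ : ℝ) ≤ 5 * 128 ^ (2 * i.1.2) / κ := by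
      have := Nat.ceil_lt_add_one (show 0 ≤ 4 * (128 : ℝ) ^ (2 * i.1.2) / κ by positivity)
      have h6 : 1 ≤ (128 : ℝ) ^ (2 * i.1.2) / κ := by
        rw [le_div_iff₀ hκ0]; nlinarith
      have h7 : 5 * (128 : ℝ) ^ (2 * i.1.2) / κ = 4 * (128 : ℝ) ^ (2 * i.1.2) / κ +
        (128 : ℝ) ^ (2 * i.1.2) / κ := by ring
      linarith
    refine ⟨?_, h8, ?_, h7⟩
    · have : ((3 : ℕ) : ℝ) ≤ (⌈4 * (128 : ℝ) ^ (2 * i.1.2) / κ⌉₊ : ℝ) := by
        push_cast; linarith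
      exact Nat.cast_le.1 this
    · refine h8.trans ?_
      have h9 : (128 : ℝ) ^ (2 * i.1.2) ≤ 128 ^ (4 * J) := pow_le_pow_right₀ (by norm_num) (by omega)
      calc 5 * (128 : ℝ) ^ (2 * i.1.2) / κ = 5 / κ * 128 ^ (2 * i.1.2) := by ring
        _ ≤ 128 ^ J * 128 ^ (4 * J) := by gcongr
        _ = 128 ^ (5 * J) := by rw [← pow_add]; congr 1; ring
  have hsumM : (J : ℝ) ^ 2 * κ / 2560 ≤ ∑ i ∈ T, 1 / (M i : ℝ) := by
    rw [hT, sum_sigma, sum_sigma]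
    have h5 : ∀ τ ∈ Ico t (t + J), ∀ j ∈ Ico J (2 * J),
        κ / 2560 ≤ ∑ z ∈ I τ j, 1 / (M ⟨⟨τ, j⟩, z⟩ : ℝ) := by
      intro τ hτ j hj
      rw [mem_Ico] at hj hτ
      have h6 := (hI τ j ⟨hτ.1, hτ.2, hj.1, hj.2⟩).2.1
      have h7 : ∀ z ∈ I τ j, κ / (5 * 128 ^ (2 * j)) ≤ 1 / (M ⟨⟨τ, j⟩, z⟩ : ℝ) := by
        intro z hz
        have hi : (⟨⟨τ, j⟩, z⟩ : Σ _ : (Σ _ : ℕ, ℕ), ℤ × ℤ) ∈ T := by
          rw [hT, mem_sigma, mem_sigma, mem_Ico, mem_Ico]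
          exact ⟨⟨hτ, hj⟩, hz⟩
        obtain ⟨h8, h9, -, -⟩ := hMb _ hi
        simp only at h9
        have h10 : (0 : ℝ) < (M ⟨⟨τ, j⟩, z⟩ : ℝ) := by
          have : 0 < M ⟨⟨τ, j⟩, z⟩ := by omega
          exact_mod_cast this
        rw [div_le_div_iff₀ (by positivity) h10]
        rw [le_div_iff₀ hκ0] at h9
        linarith
      calc κ / 2560 = (128 : ℝ) ^ (2 * j) / 512 * (κ / (5 * 128 ^ (2 * j))) := by
            field_simp; ring
        _ ≤ (I τ j).card * (κ / (5 * 128 ^ (2 * j))) := by gcongr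
        _ = ∑ z ∈ I τ j, κ / (5 * 128 ^ (2 * j)) := by rw [sum_const, nsmul_eq_mul]
        _ ≤ _ := sum_le_sum h7
    calc (J : ℝ) ^ 2 * κ / 2560 = ∑ τ ∈ Ico t (t + J), ∑ j ∈ Ico J (2 * J), κ / 2560 := by
          rw [sum_const, sum_const, nsmul_eq_mul, nsmul_eq_mul, Nat.card_Ico, Nat.card_Ico]
          have e1 : t + J - t = J := by omega
          have e2 : 2 * J - J = J := by omega
          rw [e1, e2]; ring
      _ ≤ _ := sum_le_sum fun τ hτ => sum_le_sum fun j hj => h5 τ hτ j hj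
  -- number of indices
  have hTcard : (T.card : ℝ) ≤ 128 ^ (5 * J) := by
    have h1 : T.card ≤ J * (J * 128 ^ (4 * J)) := by
      rw [hT, card_sigma, sum_sigma]
      calc ∑ τ ∈ Ico t (t + J), ∑ j ∈ Ico J (2 * J), (I τ j).card ≤
          ∑ τ ∈ Ico t (t + J), ∑ j ∈ Ico J (2 * J), 128 ^ (4 * J) := by
            refine sum_le_sum fun τ hτ => sum_le_sum fun j hj => ?_
            rw [mem_Ico] at hτ hj
            exact (hI τ j ⟨hτ.1, hτ.2, hj.1, hj.2⟩).2.2.trans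
              (Nat.pow_le_pow_right (by norm_num) (by omega))
        _ = J * (J * 128 ^ (4 * J)) := by
            rw [sum_const, sum_const, Nat.card_Ico, Nat.card_Ico, smul_eq_mul, smul_eq_mul]
            have e1 : t + J - t = J := by omega
            have e2 : 2 * J - J = J := by omega
            rw [e1, e2]
    have h2 : J * (J * 128 ^ (4 * J)) ≤ 128 ^ (5 * J) := by
      have h3 : J < 2 ^ J := Nat.lt_two_pow_self
      calc J * (J * 128 ^ (4 * J)) ≤ 2 ^ J * (2 ^ J * 128 ^ (4 * J)) := by gcongr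
        _ = (2 * 2) ^ J * 128 ^ (4 * J) := by rw [mul_pow]; ring
        _ ≤ 128 ^ J * 128 ^ (4 * J) := by gcongr; norm_num
        _ = 128 ^ (5 * J) := by rw [← pow_add]; congr 1; ring
    exact_mod_cast h1.trans h2
  -- decay
  set D : ℝ := 1 / 128 ^ (10 * J) with hD
  have hDec : ∀ n : ℤ, (128 : ℝ) ^ (t - 10 * J) ≤ |(n : ℝ)| → ‖∫ x, e (n * x) ∂μ‖ ≤ D := by
    intro n hn
    have hnpos : 0 < |(n : ℝ)| := lt_of_lt_of_le (by positivity) hn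
    have hn0 : n ≠ 0 := by
      intro h0; rw [h0] at hnpos; simp at hnpos
    calc ‖∫ x, e (n * x) ∂μ‖ ≤ C * |(n : ℝ)| ^ (-δ) := hμ n hn0
      _ ≤ 128 ^ J * ((128 : ℝ) ^ (t - 10 * J)) ^ (-δ) := by
        have := Real.rpow_le_rpow_of_nonpos (z := -δ) (by positivity) hn (by linarith)
        gcongr
      _ = (128 : ℝ) ^ ((J : ℝ) - (t - 10 * J : ℕ) * δ) := by
        rw [← Real.rpow_natCast 128 (t - 10 * J), ← Real.rpow_mul (by norm_num),
          ← Real.rpow_natCast 128 J, ← Real.rpow_add (by norm_num)]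
        congr 1; ring
      _ ≤ (128 : ℝ) ^ (-((10 * J : ℕ) : ℝ)) := by
        apply Real.rpow_le_rpow_of_exponent_le (by norm_num)
        have e1 : t - 10 * J = (g - 10) * J := by rw [htdef, Nat.sub_mul]
        rw [e1]
        push_cast
        have : (0 : ℝ) ≤ J := by positivity
        nlinarith
      _ = D := by rw [Real.rpow_neg (by norm_num), Real.rpow_natCast, hD, one_div]
  have hch := cheb μ T (fun i => i.2.1) M (fun i => γ i.2.1.toNat) D (by positivity)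
    (fun i hi => (hMb i hi).1)
    (by
      intro i hi i' hi' h h' hh hh' hb hb' hne
      obtain ⟨a1, a2, a3, a4, a5⟩ := hmem i hi
      obtain ⟨b1, b2, b3, b4, b5⟩ := hmem i' hi'
      obtain ⟨-, -, ha8, -⟩ := hMb i hi
      obtain ⟨-, -, hb8, -⟩ := hMb i' hi'
      have hb1 : |(h : ℝ)| ≤ 128 ^ (5 * J) := by
        refine le_trans ?_ ha8
        have : ((|h| : ℤ) : ℝ) ≤ ((M i : ℤ) : ℝ) := by exact_mod_cast hb
        rw [Int.cast_abs] at this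
        exact_mod_cast this
      have hb2 : |(h' : ℝ)| ≤ 128 ^ (5 * J) := by
        refine le_trans ?_ hb8
        have : ((|h'| : ℤ) : ℝ) ≤ ((M i' : ℤ) : ℝ) := by exact_mod_cast hb'
        rw [Int.cast_abs] at this
        exact_mod_cast this
      obtain ⟨h1, -⟩ := sep2 α J ((g + 8) * J) t (by omega) hdio ht htK i.1.1 i'.1.1 i.1.2 i'.1.2
        i.2 i'.2 h h' a1 b1 a2 b2 a4 b4 a5 b5 hh hb1 hb2
      rcases h1 with h1 | h1
      · exfalso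
        apply hne
        obtain ⟨⟨x1, x2⟩, x3⟩ := i
        obtain ⟨⟨y1, y2⟩, y3⟩ := i'
        simp only at h1 a5 b5
        obtain ⟨h3, h4⟩ := h1
        subst h3 h4
        obtain ⟨h5, h6⟩ := cell2_unique α x1 y1 x2 y2 x3 a5 b5
        subst h5 h6
        rfl
      · exact hDec _ h1)
    ((J : ℝ) ^ 2 * κ / 2560) (by positivity) hsumM
  refine le_trans (measure_mono ?_) (hch.trans (ENNReal.ofReal_le_ofReal ?_))
  · intro β hβ
    have h1 : ((sols α γ κ Q β).card : ℝ) < (J : ℝ) ^ 2 * κ / 51200 := hβ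
    change ((T.filter fun i => |((i.2.1 : ℝ) * β - γ i.2.1.toNat) - round ((i.2.1 : ℝ) * β - γ i.2.1.toNat)| <
      1 / (M i : ℝ)).card : ℝ) < (J : ℝ) ^ 2 * κ / 2560 / 20
    have h2 : (J : ℝ) ^ 2 * κ / 2560 / 20 = (J : ℝ) ^ 2 * κ / 51200 := by ring
    rw [h2]
    refine lt_of_le_of_lt ?_ h1
    norm_cast
    refine card_le_card_of_injOn (fun i => i.2.1.toNat) ?_ ?_
    · intro i hi
      rw [mem_coe, mem_filter] at hi
      obtain ⟨a1, a2, a3, a4, a5⟩ := hmem i hi.1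
      obtain ⟨m1, m2, m3, m4⟩ := hMb i hi.1
      obtain ⟨u1, u2, u3, u4, u5, u6⟩ := a5
      have hcast : ((i.2.1.toNat : ℕ) : ℝ) = (i.2.1 : ℝ) := by
        have : ((i.2.1.toNat : ℕ) : ℤ) = i.2.1 := Int.toNat_of_nonneg u2.le
        exact_mod_cast this
      have hz0 : (0 : ℝ) < i.2.1 := by exact_mod_cast u2
      simp only [sols, coe_filter, mem_Icc, Set.mem_ofPred_eq]
      refine ⟨⟨by omega, ?_⟩, ?_⟩
      · have h3 : ((i.2.1.toNat : ℕ) : ℝ) ≤ (Q : ℝ) := by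
          rw [hcast]
          refine u4.trans ?_
          have h4 : (128 : ℝ) ^ (i.1.1 + 1) ≤ 128 ^ ((g + 8) * J) :=
            pow_le_pow_right₀ (by norm_num) (by omega)
          rw [pow_succ] at h4
          have h5 : (0 : ℝ) < 128 ^ i.1.1 := by positivity
          have h6 : ((128 ^ ((g + 8) * J) : ℕ) : ℝ) ≤ (Q : ℝ) := by exact_mod_cast hQ
          push_cast at h6
          linarith
        exact_mod_cast h3
      · have h3 : dist1 (((i.2.1.toNat : ℕ) : ℝ) * α) ≤ 2 * 128 ^ (2 * i.1.2) / 128 ^ i.1.1 := by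
          rw [hcast]
          exact (dist1_le_abs _ i.2.2).trans u6
        have h4 : dist1 (((i.2.1.toNat : ℕ) : ℝ) * β - γ i.2.1.toNat) < 1 / (M i : ℝ) := by
          rw [hcast]
          exact hi.2
        have hM0 : (0 : ℝ) < (M i : ℝ) := by
          have : 0 < M i := by omega
          exact_mod_cast this
        have h5 : 1 / (M i : ℝ) ≤ κ / (4 * 128 ^ (2 * i.1.2)) := by
          rw [div_le_div_iff₀ hM0 (by positivity)]
          rw [div_le_iff₀ hκ0] at m4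
          linarith
        have h6 := dist1_nonneg (((i.2.1.toNat : ℕ) : ℝ) * β - γ i.2.1.toNat)
        have h7 := dist1_nonneg (((i.2.1.toNat : ℕ) : ℝ) * α)
        rw [hcast] at h3 h4 h6 h7 ⊢
        calc (i.2.1 : ℝ) * (dist1 ((i.2.1 : ℝ) * α) *
              dist1 ((i.2.1 : ℝ) * β - γ i.2.1.toNat)) ≤
            (2 * 128 ^ i.1.1) * ((2 * 128 ^ (2 * i.1.2) / 128 ^ i.1.1) *
              dist1 ((i.2.1 : ℝ) * β - γ i.2.1.toNat)) := by
              gcongr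
          _ = 4 * 128 ^ (2 * i.1.2) * dist1 ((i.2.1 : ℝ) * β - γ i.2.1.toNat) := by
              field_simp; ring
          _ < 4 * 128 ^ (2 * i.1.2) * (κ / (4 * 128 ^ (2 * i.1.2))) := by
              have := h4.trans_le h5
              gcongr
          _ = κ := by field_simp
    · intro i hi i' hi' h
      rw [mem_coe, mem_filter] at hi hi'
      simp only at h
      obtain ⟨a1, a2, a3, a4, a5⟩ := hmem i hi.1
      obtain ⟨b1, b2, b3, b4, b5⟩ := hmem i' hi'.1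
      have h3 : i.2.1 = i'.2.1 := by
        have h4 := a5.2.1
        have h5 := b5.2.1
        omega
      have h4 := cell2_inj α J t ht _ _ _ _ _ _ a1 b1 a4 b4 a5 b5 h3
      obtain ⟨⟨x1, x2⟩, x3⟩ := i
      obtain ⟨⟨y1, y2⟩, y3⟩ := i'
      simp only at h4 a5 b5
      subst h4
      obtain ⟨h5, h6⟩ := cell2_unique α x1 y1 x2 y2 x3 a5 b5
      subst h5 h6
      rfl
  · have hX : 0 < (J : ℝ) ^ 2 * κ := by positivity
    set X : ℝ := (J : ℝ) ^ 2 * κ with hXdef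
    have h1 : D * (T.card : ℝ) ^ 2 ≤ 1 := by
      calc D * (T.card : ℝ) ^ 2 ≤ 1 / 128 ^ (10 * J) * ((128 : ℝ) ^ (5 * J)) ^ 2 := by
            rw [hD]; gcongr
        _ = 1 := by
          rw [← pow_mul, show 5 * J * 2 = 10 * J by ring]
          field_simp
    calc 1200 / (X / 2560) + 400 * (D * (T.card : ℝ) ^ 2) / (X / 2560) ^ 2 ≤
        1200 / (X / 2560) + 400 * 1 / (X / 2560) ^ 2 := by gcongr
      _ = 1200 * 2560 / X + 400 * 2560 ^ 2 / X * (1 / X) := by field_simp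
      _ ≤ 1200 * 2560 / X + 400 * 2560 ^ 2 / X * 1 := by
          gcongr
          rw [div_le_one hX]; exact hJκ
      _ = (1200 * 2560 + 400 * 2560 ^ 2) / X := by ring
      _ ≤ C0 / X := by
          gcongr
          unfold C0; norm_num

end Pool.Agent.H587.CT
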