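import Mathlib
import Pool.Agent.H587.CT.Count
import Pool.Agent.H587.FD.Unif

set_option autoImplicit false

open Finset MeasureTheory Filter Topology

namespace Pool.Agent.H587.CT

open Pool.Agent.H587.FD

lemma sols_mono (α : ℝ) (γ : ℕ → ℝ) (κ κ' : ℝ) (Q Q' : ℕ) (β : ℝ) (h1 : κ' ≤ κ) (h2 : Q' ≤ Q) :
    (sols α γ κ' Q' β).card ≤ (sols α γ κ Q β).card := by
  apply card_le_card
  intro q hq
  rw [sols, mem_filter, mem_Icc] at hq ⊢
  exact ⟨⟨hq.1.1, hq.1.2.trans h2⟩, hq.2.trans_le h1⟩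

lemma dist1_mul_le (m : ℕ) (x : ℝ) : dist1 (m * x) ≤ m * dist1 x := by
  have h1 := dist1_le_abs ((m : ℝ) * x) (m * round x)
  have h2 : (m : ℝ) * x - ((m * round x : ℤ) : ℝ) = m * (x - round x) := by push_cast; ring
  rw [h2, abs_mul, Nat.abs_cast] at h1
  exact h1

/-- many solutions which are multiples of one very good denominator of `α` -/
lemma trivial_case (α : ℝ) (γ : ℕ → ℝ) (β κ : ℝ) (Q : ℕ) (L : ℝ) (hL2 : 2 ≤ L) (hκ : 1 / L ^ 2 ≤ κ)
    (hκ1 : κ ≤ 1) (q₀ : ℕ) (hq₀ : 1 ≤ q₀) (hsmall : (q₀ : ℝ) * dist1 (q₀ * α) < 1 / L ^ 4)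
    (hQ : L ^ 2 * q₀ ≤ Q) : κ * L ^ 2 / 2 ≤ (sols α γ κ Q β).card := by
  have hL0 : 0 < L := by linarith
  have hκ0 : 0 < κ := lt_of_lt_of_le (by positivity) hκ
  set s : ℝ := Real.sqrt κ with hs
  have hs0 : 0 < s := Real.sqrt_pos.2 hκ0
  have hs2 : s ^ 2 = κ := Real.sq_sqrt hκ0.le
  have hs1 : s ≤ 1 := by
    rw [hs, Real.sqrt_le_one]; exact hκ1
  have hsL : L ≤ s * L ^ 2 := by
    have h1 : 1 / L ≤ s := by
      rw [hs]
      apply Real.le_sqrt_of_sq_le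
      rw [div_pow, one_pow]; exact hκ
    calc L = 1 / L * L ^ 2 := by field_simp
      _ ≤ s * L ^ 2 := by gcongr
  set M : ℕ := ⌊s * L ^ 2⌋₊ with hM
  have hM1 : (M : ℝ) ≤ s * L ^ 2 := Nat.floor_le (by positivity)
  have hM2 : s * L ^ 2 < M + 1 := Nat.lt_floor_add_one _
  have h1 : M ≤ (sols α γ κ Q β).card := by
    have h2 : ((Icc 1 M).image fun m => m * q₀) ⊆ sols α γ κ Q β := by
      intro q hq
      rw [mem_image] at hq
      obtain ⟨m, hm, rfl⟩ := hq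
      rw [mem_Icc] at hm
      have hm1 : (m : ℝ) ≤ s * L ^ 2 := le_trans (by exact_mod_cast hm.2) hM1
      have hm0 : (0 : ℝ) < m := by exact_mod_cast hm.1
      have hq0 : (0 : ℝ) < q₀ := by exact_mod_cast hq₀
      rw [sols, mem_filter, mem_Icc]
      refine ⟨⟨by nlinarith [hm.1], ?_⟩, ?_⟩
      · have h3 : ((m * q₀ : ℕ) : ℝ) ≤ Q := by
          push_cast
          calc (m : ℝ) * q₀ ≤ (s * L ^ 2) * q₀ := by gcongr
            _ ≤ (1 * L ^ 2) * q₀ := by gcongr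
            _ ≤ Q := by rw [one_mul]; exact hQ
        exact_mod_cast h3
      · have h3 : dist1 (((m * q₀ : ℕ) : ℝ) * α) ≤ m * dist1 (q₀ * α) := by
          have := dist1_mul_le m (q₀ * α)
          rw [← mul_assoc] at this
          push_cast
          exact this
        have h4 := dist1_le (((m * q₀ : ℕ) : ℝ) * β - γ (m * q₀))
        have h5 := dist1_nonneg (((m * q₀ : ℕ) : ℝ) * β - γ (m * q₀))
        have h6 := dist1_nonneg (q₀ * α)
        have h7 := dist1_nonneg (((m * q₀ : ℕ) : ℝ) * α)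
        calc ((m * q₀ : ℕ) : ℝ) * (dist1 (((m * q₀ : ℕ) : ℝ) * α) *
              dist1 (((m * q₀ : ℕ) : ℝ) * β - γ (m * q₀))) ≤
            ((m * q₀ : ℕ) : ℝ) * ((m * dist1 (q₀ * α)) * (1 / 2)) := by gcongr
          _ = m ^ 2 * (q₀ * dist1 (q₀ * α)) / 2 := by push_cast; ring
          _ ≤ (s * L ^ 2) ^ 2 * (1 / L ^ 4) / 2 := by gcongr
          _ = κ / 2 := by rw [mul_pow, hs2]; field_simp
          _ < κ := by linarith
    have h3 := card_le_card h2
    rw [card_image_of_injective _ (fun a b hab => Nat.eq_of_mul_eq_mul_right (by omega) hab),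
      Nat.card_Icc] at h3
    simpa using h3
  have h2 : (M : ℝ) ≤ (sols α γ κ Q β).card := by exact_mod_cast h1
  have h3 : κ * L ^ 2 ≤ s * L ^ 2 := by
    have : κ ≤ s := by rw [← hs2]; nlinarith
    gcongr
  linarith

lemma geom_sum_le (F : Finset ℕ) (X : ℝ) (hX : ∀ k ∈ F, (2 : ℝ) ^ k ≤ X) (hX0 : 0 ≤ X) :
    ∑ k ∈ F, (2 : ℝ) ^ k ≤ 2 * X := by
  by_cases hF : F.Nonempty
  · have h1 : F ⊆ range (F.max' hF + 1) := by
      intro k hk
      rw [mem_range]
      have := F.le_max' k hk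
      omega
    calc ∑ k ∈ F, (2 : ℝ) ^ k ≤ ∑ k ∈ range (F.max' hF + 1), (2 : ℝ) ^ k :=
          sum_le_sum_of_subset_of_nonneg h1 fun _ _ _ => by positivity
      _ = (2 ^ (F.max' hF + 1) - 1) / (2 - 1) := geom_sum_eq (by norm_num) _
      _ ≤ 2 * 2 ^ (F.max' hF) := by rw [pow_succ]; norm_num; linarith
      _ ≤ 2 * X := by
        have := hX _ (F.max'_mem hF)
        linarith
  · rw [not_nonempty_iff_eq_empty] at hF
    rw [hF, sum_empty]; linarith

/-- the exceptional event at scale `2 ^ i` -/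
def Bad (G : ℕ) (α : ℝ) (γ : ℕ → ℝ) (i k : ℕ) : Set ℝ :=
  {β | ((sols α γ (1 / 2 ^ k) (128 ^ (G * 2 ^ i)) β).card : ℝ) < ((2 ^ i : ℕ) : ℝ) ^ 2 * (1 / 2 ^ k) / 51200}

theorem ae_good (μ : Measure ℝ) [IsProbabilityMeasure μ] (C δ : ℝ) (hC : 0 ≤ C) (hδ : 0 < δ)
    (hμ : ∀ n : ℤ, n ≠ 0 → ‖∫ x, e (n * x) ∂μ‖ ≤ C * |(n : ℝ)| ^ (-δ))
    (α : ℝ) (γ : ℕ → ℝ) (g : ℕ) (hg : 10 ≤ g) (hgδ : 11 ≤ δ * (g - 10 : ℕ)) (η : ℝ) (hη : 0 < η) :
    ∀ᵐ β ∂μ, ∃ i₁ : ℕ, ∀ i, i₁ ≤ i → Dio2 α (2 ^ i) ((g + 8) * 2 ^ i) →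
      ∀ k : ℕ, (2 : ℝ) ^ k * ((i : ℝ) + 1) ^ (1 + η) ≤ 4 ^ i → β ∉ Bad (g + 8) α γ i k := by
  classical
  obtain ⟨iC, hiC⟩ : ∃ iC : ℕ, C ≤ 128 ^ iC :=
    (pow_unbounded_of_one_lt C (by norm_num : (1 : ℝ) < 128)).imp fun n hn => hn.le
  set i₀ : ℕ := max 3 iC with hi₀
  set F : ℕ → Finset ℕ := fun i => (range (2 * i + 1)).filter fun k =>
    (2 : ℝ) ^ k * ((i : ℝ) + 1) ^ (1 + η) ≤ 4 ^ i with hF
  set A : ℕ → Set ℝ := fun i => {β | i₀ ≤ i ∧ Dio2 α (2 ^ i) ((g + 8) * 2 ^ i) ∧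
    β ∈ ⋃ k ∈ F i, Bad (g + 8) α γ i k} with hA
  have hmeas : ∀ i, μ (A i) ≤ ENNReal.ofReal (2 * C0 * (1 / ((i + 1 : ℕ) : ℝ) ^ (1 + η))) := by
    intro i
    by_cases hcond : i₀ ≤ i ∧ Dio2 α (2 ^ i) ((g + 8) * 2 ^ i)
    · obtain ⟨hi, hdio⟩ := hcond
      have hJ5 : 5 ≤ 2 ^ i := by
        have : 3 ≤ i := (le_max_left _ _).trans hi
        calc 5 ≤ 2 ^ 3 := by norm_num
          _ ≤ 2 ^ i := Nat.pow_le_pow_right (by norm_num) this
      have hCJ : C ≤ 128 ^ (2 ^ i) := by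
        have h1 : iC ≤ i := (le_max_right _ _).trans hi
        have h2 : i ≤ 2 ^ i := Nat.lt_two_pow_self.le
        exact hiC.trans (pow_le_pow_right₀ (by norm_num) (h1.trans h2))
      have hone : ∀ k ∈ F i, μ (Bad (g + 8) α γ i k) ≤ ENNReal.ofReal (C0 / 4 ^ i * 2 ^ k) := by
        intro k hk
        rw [hF, mem_filter] at hk
        have h1 : (2 : ℝ) ^ k ≤ 4 ^ i := by
          have h2 : (1 : ℝ) ≤ ((i : ℝ) + 1) ^ (1 + η) :=
            Real.one_le_rpow (by have : (0 : ℝ) ≤ i := by positivity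
                                 linarith) (by linarith)
          have h3 : (0 : ℝ) < 2 ^ k := by positivity
          nlinarith [hk.2]
        have h4 : (((2 ^ i : ℕ) : ℝ)) ^ 2 = 4 ^ i := by
          push_cast
          rw [← pow_mul, mul_comm, pow_mul]; norm_num
        have h5 := count_block μ C δ hC hδ hμ α γ g (2 ^ i) hJ5 hg hgδ hCJ hdio (1 / 2 ^ k)
          (by positivity) (by
            rw [div_le_one (by positivity)]
            exact one_le_pow₀ (by norm_num)) (by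
            rw [div_div_eq_mul_div, div_one]
            have e1 : (4 : ℝ) ^ i ≤ 4 ^ (2 ^ i) :=
              pow_le_pow_right₀ (by norm_num) Nat.lt_two_pow_self.le
            have e2 : (5 : ℝ) ≤ 32 ^ (2 ^ i) := by
              calc (5 : ℝ) ≤ 32 ^ 1 := by norm_num
                _ ≤ 32 ^ (2 ^ i) := pow_le_pow_right₀ (by norm_num) (by omega)
            calc (5 : ℝ) * 2 ^ k ≤ 5 * 4 ^ i := by gcongr
              _ ≤ 32 ^ (2 ^ i) * 4 ^ (2 ^ i) := by gcongr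
              _ = 128 ^ (2 ^ i) := by rw [← mul_pow]; norm_num) (by
            rw [h4, mul_one_div, le_div_iff₀ (by positivity), one_mul]
            exact h1) (128 ^ ((g + 8) * 2 ^ i)) le_rfl
        refine h5.trans (ENNReal.ofReal_le_ofReal ?_)
        rw [h4]
        apply le_of_eq
        field_simp
      calc μ (A i) ≤ μ (⋃ k ∈ F i, Bad (g + 8) α γ i k) := by
            apply measure_mono
            intro β hβ
            exact hβ.2.2
        _ ≤ ∑ k ∈ F i, μ (Bad (g + 8) α γ i k) := measure_biUnion_finset_le _ _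
        _ ≤ ∑ k ∈ F i, ENNReal.ofReal (C0 / 4 ^ i * 2 ^ k) := sum_le_sum hone
        _ = ENNReal.ofReal (∑ k ∈ F i, C0 / 4 ^ i * 2 ^ k) := by
            rw [ENNReal.ofReal_sum_of_nonneg]
            intro k _
            unfold C0; positivity
        _ ≤ _ := by
            apply ENNReal.ofReal_le_ofReal
            rw [← mul_sum]
            have hp : (0 : ℝ) < ((i : ℝ) + 1) ^ (1 + η) := by positivity
            have h1 := geom_sum_le (F i) (4 ^ i / ((i : ℝ) + 1) ^ (1 + η)) (by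
              intro k hk
              rw [hF, mem_filter] at hk
              rw [le_div_iff₀ hp]; exact hk.2) (by positivity)
            have hC0 : 0 ≤ C0 / 4 ^ i := by unfold C0; positivity
            calc C0 / 4 ^ i * ∑ k ∈ F i, (2 : ℝ) ^ k ≤
                C0 / 4 ^ i * (2 * (4 ^ i / ((i : ℝ) + 1) ^ (1 + η))) := by gcongr
              _ = 2 * C0 * (1 / ((i + 1 : ℕ) : ℝ) ^ (1 + η)) := by
                push_cast; field_simp
    · have h1 : A i = ∅ := by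
        rw [hA]
        ext β
        simp only [Set.mem_ofPred_eq, Set.mem_empty_iff_false, iff_false]
        rintro ⟨h2, h3, -⟩
        exact hcond ⟨h2, h3⟩
      rw [h1, measure_empty]
      exact bot_le
  have hsum : ∑' i, μ (A i) ≠ ⊤ := by
    have h1 : Summable (fun i : ℕ => 2 * C0 * (1 / ((i + 1 : ℕ) : ℝ) ^ (1 + η))) := by
      apply Summable.mul_left
      rw [summable_nat_add_iff 1 (f := fun i : ℕ => 1 / (i : ℝ) ^ (1 + η))]
      exact Real.summable_one_div_nat_rpow.2 (by linarith)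
    refine ne_top_of_le_ne_top ?_ (ENNReal.tsum_le_tsum hmeas)
    rw [← ENNReal.ofReal_tsum_of_nonneg _ h1]
    · exact ENNReal.ofReal_ne_top
    · intro i
      unfold C0; positivity
  filter_upwards [ae_eventually_notMem hsum] with β hβ
  obtain ⟨i₁, hi₁⟩ := eventually_atTop.1 hβ
  refine ⟨max i₁ i₀, fun i hi hdio k hk hbad => ?_⟩
  apply hi₁ i ((le_max_left _ _).trans hi)
  rw [hA]
  refine ⟨(le_max_right _ _).trans hi, hdio, ?_⟩
  rw [Set.mem_iUnion₂]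
  refine ⟨k, ?_, hbad⟩
  rw [hF, mem_filter, mem_range]
  refine ⟨?_, hk⟩
  have h2 : (1 : ℝ) ≤ ((i : ℝ) + 1) ^ (1 + η) :=
    Real.one_le_rpow (by have : (0 : ℝ) ≤ i := by positivity
                         linarith) (by linarith)
  have h3 : (0 : ℝ) < 2 ^ k := by positivity
  have h1 : (2 : ℝ) ^ k ≤ 2 ^ (2 * i) := by
    rw [pow_mul]
    have : (2 : ℝ) ^ 2 = 4 := by norm_num
    rw [this]
    nlinarith
  have h4 : (2 : ℕ) ^ k ≤ 2 ^ (2 * i) := by exact_mod_cast h1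
  have := (Nat.pow_le_pow_iff_right (by norm_num : 1 < 2)).1 h4
  omega

end Pool.Agent.H587.CT
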