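import Mathlib
import Pool.Agent.H587.CT.AllScales

set_option autoImplicit false

open Finset MeasureTheory Filter Topology

namespace Pool.Agent.H587.CT

open Pool.Agent.H587.FD

/-- deterministic part: at one scale -/
lemma one_scale (G : ℕ) (hG : 1 ≤ G) (α : ℝ) (γ : ℕ → ℝ) (β : ℝ) (η ε : ℝ) (hη : 0 < η)
    (i₁ : ℕ)
    (hi₁ : ∀ i, i₁ ≤ i → Dio2 α (2 ^ i) (G * 2 ^ i) →
      ∀ k : ℕ, (2 : ℝ) ^ k * ((i : ℝ) + 1) ^ (1 + η) ≤ 4 ^ i → β ∉ Bad G α γ i k)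
    (Q : ℕ) (L : ℝ) (hL : L = Real.log Q) (hL2 : 2 ≤ L) (hll : 1 ≤ Real.log L)
    (h1 : (20 * G : ℝ) * 2 ^ i₁ ≤ L) (h2 : L ^ 4 ≤ (2 : ℝ) ^ (L / (20 * G)))
    (h3 : 800 * (G : ℝ) ^ 2 * 3 ^ (1 + η) * Real.log L ^ (1 + η) ≤ Real.log L ^ (1 + ε))
    (κ : ℝ) (hκ : Real.log L ^ (1 + ε) / L ^ 2 ≤ κ) (hκ1 : κ ≤ 1) :
    1 / (40960000 * (G : ℝ) ^ 2) * κ * L ^ 2 ≤ (sols α γ κ Q β).card := by
  have hG1 : (1 : ℝ) ≤ G := by exact_mod_cast hG
  have hL0 : 0 < L := by linarith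
  have hll0 : 0 < Real.log L := by linarith
  have hpow1 : 1 ≤ Real.log L ^ (1 + ε) := by
    have h4 : 1 ≤ Real.log L ^ (1 + η) := Real.one_le_rpow hll (by linarith)
    have h5 : (1 : ℝ) ≤ 3 ^ (1 + η) := Real.one_le_rpow (by norm_num) (by linarith)
    calc (1 : ℝ) ≤ 800 * (G : ℝ) ^ 2 * 3 ^ (1 + η) * Real.log L ^ (1 + η) := by
          have : (1 : ℝ) ≤ (G : ℝ) ^ 2 := one_le_pow₀ hG1
          calc (1 : ℝ) = 1 * 1 * 1 * 1 := by norm_num
            _ ≤ 800 * (G : ℝ) ^ 2 * 3 ^ (1 + η) * Real.log L ^ (1 + η) := by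
              gcongr
              norm_num
      _ ≤ _ := h3
  have hκ' : 1 / L ^ 2 ≤ κ := le_trans (by gcongr) hκ
  have hκ0 : 0 < κ := lt_of_lt_of_le (by positivity) hκ'
  -- the choice of `i`
  set x : ℝ := L / (10 * G) with hx
  have hx1 : 2 ^ i₁ ≤ x / 2 := by
    rw [hx, div_div, le_div_iff₀ (by positivity)]
    linarith
  have hx2 : (1 : ℝ) ≤ x / 2 := le_trans (one_le_pow₀ (by norm_num)) hx1
  set n : ℕ := ⌊x⌋₊ with hn
  have hn0 : n ≠ 0 := by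
    rw [hn, Ne, Nat.floor_eq_zero]; linarith
  set i : ℕ := Nat.log 2 n with hi
  have hi2 : 2 ^ i ≤ n := Nat.pow_log_le_self 2 hn0
  have hi3 : n < 2 ^ (i + 1) := Nat.lt_pow_succ_log_self (by norm_num) n
  have hi4 : ((2 : ℝ) ^ i) ≤ x := by
    calc ((2 : ℝ) ^ i) ≤ n := by exact_mod_cast hi2
      _ ≤ x := Nat.floor_le (by linarith)
  have hi5 : x < 2 * (2 : ℝ) ^ i := by
    have h4 : x < (n : ℝ) + 1 := Nat.lt_floor_add_one x
    have h5 : ((n + 1 : ℕ) : ℝ) ≤ ((2 ^ (i + 1) : ℕ) : ℝ) := by exact_mod_cast hi3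
    push_cast at h5
    rw [pow_succ] at h5
    linarith
  have hii : i₁ ≤ i := by
    have h4 : (2 : ℝ) ^ i₁ ≤ 2 ^ i := by linarith
    have h5 : (2 : ℕ) ^ i₁ ≤ 2 ^ i := by exact_mod_cast h4
    exact (Nat.pow_le_pow_iff_right (by norm_num : 1 < 2)).1 h5
  -- the size of the scale
  have hQ0 : (0 : ℝ) < Q := by
    rcases Nat.eq_zero_or_pos Q with h | h
    · rw [h] at hL; simp at hL; linarith
    · exact_mod_cast h
  have hlog128 := log128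
  have hscale : (128 : ℝ) ^ (2 * (G * 2 ^ i)) ≤ Q := by
    rw [← Real.log_le_log_iff (by positivity) hQ0, Real.log_pow, ← hL]
    push_cast
    have h4 : (G : ℝ) * 2 ^ i ≤ L / 10 := by
      calc (G : ℝ) * 2 ^ i ≤ G * x := by gcongr
        _ = L / 10 := by rw [hx]; field_simp
    have h0 : 0 ≤ Real.log 128 := Real.log_nonneg (by norm_num)
    calc 2 * ((G : ℝ) * 2 ^ i) * Real.log 128 ≤ 2 * (L / 10) * 5 := by gcongr
      _ = L := by ring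
  have hJL : L ^ 4 ≤ (128 : ℝ) ^ (2 ^ i) := by
    calc L ^ 4 ≤ (2 : ℝ) ^ (L / (20 * G)) := h2
      _ ≤ (2 : ℝ) ^ (((2 ^ i : ℕ) : ℝ)) := by
        apply Real.rpow_le_rpow_of_exponent_le (by norm_num)
        push_cast
        have : L / (20 * G) = x / 2 := by rw [hx]; field_simp; norm_num
        rw [this]; linarith
      _ = (2 : ℝ) ^ (2 ^ i) := by rw [Real.rpow_natCast]
      _ ≤ 128 ^ (2 ^ i) := by gcongr; norm_num
  have hcsmall : 1 / (40960000 * (G : ℝ) ^ 2) ≤ 1 / 2 := by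
    apply div_le_div_of_nonneg_left zero_le_one (by norm_num)
    have : (1 : ℝ) ≤ (G : ℝ) ^ 2 := one_le_pow₀ hG1
    linarith
  by_cases hcase : ∃ q₀ : ℕ, 1 ≤ q₀ ∧ (q₀ : ℝ) ≤ 128 ^ (G * 2 ^ i) ∧
      (q₀ : ℝ) * dist1 (q₀ * α) < 1 / L ^ 4
  · obtain ⟨q₀, hq1, hq2, hq3⟩ := hcase
    have h4 := trivial_case α γ β κ Q L hL2 hκ' hκ1 q₀ hq1 hq3 (by
      have h5 : L ^ 2 ≤ 128 ^ (G * 2 ^ i) := by
        calc L ^ 2 ≤ L ^ 4 := pow_le_pow_right₀ (by linarith) (by norm_num)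
          _ ≤ 128 ^ (2 ^ i) := hJL
          _ ≤ 128 ^ (G * 2 ^ i) := pow_le_pow_right₀ (by norm_num) (Nat.le_mul_of_pos_left _ (by omega))
      calc L ^ 2 * q₀ ≤ 128 ^ (G * 2 ^ i) * 128 ^ (G * 2 ^ i) := by gcongr
        _ = 128 ^ (2 * (G * 2 ^ i)) := by rw [← pow_add]; congr 1; ring
        _ ≤ Q := hscale)
    refine le_trans ?_ h4
    have : 0 ≤ κ * L ^ 2 := by positivity
    nlinarith
  · push Not at hcase
    have hdio : Dio2 α (2 ^ i) (G * 2 ^ i) := by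
      intro q p hq hqK
      obtain ⟨m, rfl⟩ : ∃ m : ℕ, q = m := ⟨q.toNat, by omega⟩
      have hm : 1 ≤ m := by omega
      push_cast at hqK ⊢
      have h4 := hcase m hm hqK
      have h5 := dist1_le_abs ((m : ℝ) * α) p
      have hm0 : (0 : ℝ) < m := by exact_mod_cast hm
      have h6 := dist1_nonneg ((m : ℝ) * α)
      calc (1 : ℝ) = 1 / L ^ 4 * L ^ 4 := by field_simp
        _ ≤ (m * dist1 (m * α)) * 128 ^ (2 ^ i) := by gcongr
        _ = dist1 (m * α) * m * 128 ^ (2 ^ i) := by ring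
        _ ≤ _ := by gcongr
    obtain ⟨k, hk1, hk2⟩ := exists_nat_pow_near_of_lt_one (x := κ) (y := 1 / 2) hκ0 hκ1 (by norm_num)
      (by norm_num)
    have hk3 : (1 : ℝ) / 2 ^ (k + 1) = (1 / 2) ^ (k + 1) := by rw [one_div_pow]
    have h4i : (4 : ℝ) ^ i = (2 ^ i) ^ 2 := by
      rw [← pow_mul, mul_comm, pow_mul]; norm_num
    have h4L : L ^ 2 / (400 * G ^ 2) ≤ 4 ^ i := by
      rw [h4i]
      have h5 : L / (20 * G) ≤ 2 ^ i := by
        have : L / (20 * G) = x / 2 := by rw [hx]; field_simp; norm_num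
        rw [this]; linarith
      calc L ^ 2 / (400 * G ^ 2) = (L / (20 * G)) ^ 2 := by rw [div_pow]; congr 1; ring
        _ ≤ (2 ^ i) ^ 2 := by gcongr
    have hilog : (i : ℝ) + 1 ≤ 3 * Real.log L := by
      have h5 : (2 : ℝ) ^ i ≤ L := by
        refine hi4.trans ?_
        rw [hx, div_le_iff₀ (by positivity)]
        nlinarith
      have h6 : (i : ℝ) * Real.log 2 ≤ Real.log L := by
        rw [← Real.log_pow]
        exact Real.log_le_log (by positivity) h5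
      have h7 := Real.log_two_gt_d9
      have h8 : (0 : ℝ) ≤ i := by positivity
      nlinarith
    have hcond : (2 : ℝ) ^ (k + 1) * ((i : ℝ) + 1) ^ (1 + η) ≤ 4 ^ i := by
      have h5 : (2 : ℝ) ^ (k + 1) ≤ 2 / κ := by
        rw [le_div_iff₀ hκ0]
        have h6 : κ * 2 ^ k ≤ 1 := by
          calc κ * 2 ^ k ≤ (1 / 2) ^ k * 2 ^ k := by gcongr
            _ = 1 := by rw [← mul_pow]; norm_num
        rw [pow_succ]; linarith
      have h6 : 2 / κ ≤ 2 * L ^ 2 / Real.log L ^ (1 + ε) := by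
        rw [div_le_div_iff₀ hκ0 (by positivity)]
        rw [div_le_iff₀ (by positivity)] at hκ
        linarith
      have h7 : ((i : ℝ) + 1) ^ (1 + η) ≤ 3 ^ (1 + η) * Real.log L ^ (1 + η) := by
        rw [← Real.mul_rpow (by norm_num) hll0.le]
        gcongr
      calc (2 : ℝ) ^ (k + 1) * ((i : ℝ) + 1) ^ (1 + η) ≤
          (2 * L ^ 2 / Real.log L ^ (1 + ε)) * (3 ^ (1 + η) * Real.log L ^ (1 + η)) := by
            gcongr
            exact h5.trans h6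
        _ = L ^ 2 / (400 * G ^ 2) * ((800 * (G : ℝ) ^ 2 * 3 ^ (1 + η) * Real.log L ^ (1 + η)) /
              Real.log L ^ (1 + ε)) := by field_simp; norm_num
        _ ≤ L ^ 2 / (400 * G ^ 2) * 1 := by
            gcongr
            rw [div_le_one (by positivity)]; exact h3
        _ ≤ 4 ^ i := by rw [mul_one]; exact h4L
    have h5 := hi₁ i hii hdio (k + 1) hcond
    unfold Bad at h5
    rw [Set.mem_ofPred_eq, not_lt] at h5
    have h6 : (sols α γ (1 / 2 ^ (k + 1)) (128 ^ (G * 2 ^ i)) β).card ≤ (sols α γ κ Q β).card := by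
      apply sols_mono
      · rw [hk3]; exact hk1.le
      · have h7 : (128 : ℝ) ^ (G * 2 ^ i) ≤ Q :=
          le_trans (pow_le_pow_right₀ (by norm_num) (by omega)) hscale
        exact_mod_cast h7
    have h7 : ((sols α γ (1 / 2 ^ (k + 1)) (128 ^ (G * 2 ^ i)) β).card : ℝ) ≤
      (sols α γ κ Q β).card := by exact_mod_cast h6
    refine le_trans ?_ (h5.trans h7)
    push_cast
    rw [← h4i]
    have h8 : κ / 2 ≤ 1 / 2 ^ (k + 1) := by
      have : (1 : ℝ) / 2 ^ (k + 1) = (1 / 2) ^ k / 2 := by rw [hk3, pow_succ]; ring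
      rw [this]; linarith
    calc 1 / (40960000 * (G : ℝ) ^ 2) * κ * L ^ 2 = L ^ 2 / (400 * G ^ 2) * (κ / 2) / 51200 := by
          field_simp; norm_num
      _ ≤ 4 ^ i * (1 / 2 ^ (k + 1)) / 51200 := by gcongr

theorem all_scales (δ : ℝ) (hδ : 0 < δ) : ∃ c : ℝ, 0 < c ∧
    ∀ (μ : Measure ℝ) [IsProbabilityMeasure μ] (C : ℝ),
      (∀ n : ℤ, n ≠ 0 → ‖∫ x, e (n * x) ∂μ‖ ≤ C * |(n : ℝ)| ^ (-δ)) →
      ∀ (α : ℝ) (γ : ℕ → ℝ), ∀ᵐ β ∂μ, ∀ ε : ℝ, 0 < ε → ∃ Q₀ : ℕ, ∀ Q : ℕ, Q₀ ≤ Q → ∀ κ : ℝ,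
        Real.log (Real.log Q) ^ (1 + ε) / Real.log Q ^ 2 ≤ κ → κ ≤ 1 →
          c * κ * Real.log Q ^ 2 ≤ (sols α γ κ Q β).card := by
  obtain ⟨g, hg, hgδ⟩ : ∃ g : ℕ, 10 ≤ g ∧ 11 ≤ δ * (g - 10 : ℕ) := by
    obtain ⟨k, hk⟩ := exists_nat_ge (11 / δ)
    refine ⟨k + 10, by omega, ?_⟩
    rw [div_le_iff₀ hδ] at hk
    simp only [Nat.add_sub_cancel]
    linarith
  set G : ℕ := g + 8 with hG
  have hG1 : (1 : ℝ) ≤ G := by
    have : 1 ≤ G := by omega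
    exact_mod_cast this
  refine ⟨1 / (40960000 * (G : ℝ) ^ 2), by positivity, ?_⟩
  intro μ _ C hμ α γ
  have hall : ∀ n : ℕ, ∀ᵐ β ∂μ, ∃ i₁ : ℕ, ∀ i, i₁ ≤ i → Dio2 α (2 ^ i) (G * 2 ^ i) →
      ∀ k : ℕ, (2 : ℝ) ^ k * ((i : ℝ) + 1) ^ (1 + 1 / ((n : ℝ) + 1)) ≤ 4 ^ i → β ∉ Bad G α γ i k := by
    intro n
    refine ae_good μ |C| δ (abs_nonneg C) hδ ?_ α γ g hg hgδ _ (by positivity)
    intro m hm
    refine (hμ m hm).trans ?_
    gcongr
    exact le_abs_self C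
  rw [← ae_all_iff] at hall
  filter_upwards [hall] with β hβ ε hε
  obtain ⟨n, hn⟩ := exists_nat_one_div_lt hε
  set η : ℝ := 1 / ((n : ℝ) + 1) with hη
  have hη0 : 0 < η := by positivity
  obtain ⟨i₁, hi₁⟩ := hβ n
  have hG0 : (0 : ℝ) < 20 * G := by positivity
  have tL : Tendsto (fun Q : ℕ => Real.log Q) atTop atTop :=
    Real.tendsto_log_atTop.comp tendsto_natCast_atTop_atTop
  have e1 : ∀ᶠ L : ℝ in atTop, 2 ≤ L := eventually_ge_atTop 2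
  have e2 : ∀ᶠ L : ℝ in atTop, 1 ≤ Real.log L := Real.tendsto_log_atTop.eventually_ge_atTop 1
  have e3 : ∀ᶠ L : ℝ in atTop, (20 * G : ℝ) * 2 ^ i₁ ≤ L := eventually_ge_atTop _
  have e4 : ∀ᶠ L : ℝ in atTop, L ^ 4 ≤ (2 : ℝ) ^ (L / (20 * G)) := by
    have h1 := (isLittleO_pow_exp_pos_mul_atTop 4 (b := Real.log 2 / (20 * G)) (by
      have : 0 < Real.log 2 := Real.log_pos (by norm_num)
      positivity)).bound (c := 1) one_pos
    filter_upwards [h1, eventually_ge_atTop 0] with L h2 h3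
    rw [one_mul, Real.norm_of_nonneg (by positivity), Real.norm_of_nonneg (Real.exp_pos _).le] at h2
    refine h2.trans (le_of_eq ?_)
    rw [Real.rpow_def_of_pos (by norm_num)]
    congr 1; ring
  have e5 : ∀ᶠ L : ℝ in atTop,
      800 * (G : ℝ) ^ 2 * 3 ^ (1 + η) * Real.log L ^ (1 + η) ≤ Real.log L ^ (1 + ε) := by
    have h1 : Tendsto (fun L : ℝ => Real.log L ^ (ε - η)) atTop atTop :=
      (tendsto_rpow_atTop (by linarith)).comp Real.tendsto_log_atTop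
    filter_upwards [h1.eventually_ge_atTop (800 * (G : ℝ) ^ 2 * 3 ^ (1 + η)), e2] with L h2 h3
    have h4 : Real.log L ^ (1 + ε) = Real.log L ^ (ε - η) * Real.log L ^ (1 + η) := by
      rw [← Real.rpow_add (by linarith)]
      congr 1; ring
    rw [h4]
    gcongr
  obtain ⟨Q₀, hQ₀⟩ := eventually_atTop.1 (tL.eventually (e1.and (e2.and (e3.and (e4.and e5)))))
  refine ⟨Q₀, fun Q hQ κ hκ hκ1 => ?_⟩
  obtain ⟨f1, f2, f3, f4, f5⟩ := hQ₀ Q hQ
  exact one_scale G (by omega) α γ β η ε hη0 i₁ hi₁ Q (Real.log Q) rfl f1 f2 f3 f4 f5 κ hκ hκ1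

end Pool.Agent.H587.CT
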